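import Pool.Agent.Helper73.WT.Cross
import Pool.Agent.Helper35.V7.Row3
import Pool.Agent.Helper75.WC.GoodRowM
import Pool.Agent.Helper35.WW.Curve

/-! Project WT. Frobenius is semisimple on the eigenclasses for the faithful characters of the
cyclic extensions `M / R` with a uniruled wild twist over a field `Ω(x, y, z)`. -/

set_option autoImplicit false

namespace Pool.Agent.Helper73.WT

open IntermediateField Module Pool.Agent.Helper75.QC Pool.Agent.Helper75.TC Pool.Agent.Helper75.WC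
  Pool.Agent.Helper35.V7 Pool.Agent.Helper73.QX Pool.Agent.Helper73.QW

section

variable {Ω : Type} [Field Ω] {K : Type} [Field K] [Algebra Ω K]

/-- everything is algebraic over `x`, `y` -/
theorem alg_wild {p : ℕ} (hp : 2 ≤ p) {x y z w : K} (hz : z ∈ Acl Ω {x, y})
    (hK : adjoin Ω {x, y, z, w} = ⊤) (hw : w ^ p - w ∈ adjoin Ω {x, y, z}) (k : K) :
    k ∈ Acl Ω {x, y} := by
  have hz' : z ∈ AF Ω {x, y} := mem_AF.2 hz
  have h1 : adjoin Ω {x, y, z} ≤ AF Ω {x, y} := by
    rw [adjoin_le_iff]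
    rintro s (rfl | rfl | rfl)
    · exact subset_AF _ (by simp)
    · exact subset_AF _ (by simp)
    · exact hz'
  have h2 : w ∈ AF Ω {x, y} := by
    refine AF_closed ⟨Polynomial.X ^ p - Polynomial.X -
      Polynomial.C (⟨w ^ p - w, h1 hw⟩ : AF Ω {x, y}), ?_, ?_⟩
    · intro h0
      have h3 := congrArg (fun P => Polynomial.coeff P p) h0
      simp only [Polynomial.coeff_sub, Polynomial.coeff_X_pow, if_true, Polynomial.coeff_X,
        Polynomial.coeff_C, Polynomial.coeff_zero] at h3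
      rw [if_neg (by omega), if_neg (by omega), sub_zero, sub_zero] at h3
      exact one_ne_zero h3
    · simp only [map_sub, map_pow, Polynomial.aeval_X, Polynomial.aeval_C]
      exact sub_self _
  rw [← mem_AF]
  have h3 : adjoin Ω {x, y, z, w} ≤ AF Ω {x, y} := by
    rw [adjoin_le_iff]
    rintro s (rfl | rfl | rfl | rfl)
    · exact subset_AF _ (by simp)
    · exact subset_AF _ (by simp)
    · exact hz'
    · exact h2
  apply h3
  rw [hK]
  exact mem_top

end

variable {p : ℕ} [hpr : Fact p.Prime] {Ω L : Type} [Field Ω] [Algebra (ZMod p) Ω]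
  [Field L] [CharZero L] [IsAlgClosed L]

/-- **One eigenvalue.** -/
theorem wild_eigen3 (T : Theory p Ω L) {m : ℕ} (hm : m.Prime)
    (hcurve : WildCurve p m T.toCohomology) {K : Type} [Field K] [Algebra Ω K] (x y z w : K)
    (hzz : z ∈ Acl Ω {x, y}) (hK : adjoin Ω {x, y, z, w} = ⊤)
    (hw : w ^ p - w ∈ adjoin Ω {x, y, z})
    (huni : ∀ (N : Type) [Field N] [Algebra Ω N] (g : K →ₐ[Ω] N) (d s : N),
      Transcendental g.fieldRange s → d ^ p - d = s ^ m - g (w ^ p - w) →
      Uniruled Ω (adjoin Ω {g x, g y, g z, d, s} : IntermediateField Ω N) 3)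
    (σ : K →ₐ[Ω] K) (hσ : (∀ k ∈ adjoin Ω {x, y, z}, σ k = k) ∧ σ w = w + 1) {e : ℕ}
    (φ : K →ₐ[Ω] K)
    (hφ : φ x = x ^ p ^ e ∧ φ y = y ^ p ^ e ∧ φ z = z ^ p ^ e ∧ φ w = w ^ p ^ e)
    {ξ : L} (hξp : ξ ^ p = 1) (hξ1 : ξ ≠ 1)
    (U : Submodule L (T.H 2 K)) (hU : ∀ t ∈ U, T.map 2 σ t = ξ • t)
    (hP : ∀ t ∈ U, T.map 2 φ t ∈ U) :
    Module.End.IsSemisimple ((T.map 2 φ : Module.End L (T.H 2 K)).restrict hP) := by
  classical
  have hp0 : p ≠ 0 := hpr.out.ne_zero
  obtain ⟨Q, hQ⟩ : ∃ Q, Q = p ^ e := ⟨_, rfl⟩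
  have hQ0 : 0 < Q := by
    rw [hQ]
    exact pow_pos (Nat.pos_of_ne_zero hp0) _
  have hfin : (⊤ : IntermediateField Ω K).FG := by
    rw [← hK]
    exact fg_adjoin_of_finite (Set.toFinite _)
  have : FiniteDimensional L (T.H 2 K) := T.fin 2 K hfin
  have hξ0 : ξ ≠ 0 := by
    rintro rfl
    rw [zero_pow hp0] at hξp
    exact zero_ne_one hξp
  have hBw : adjoin Ω ((adjoin Ω {x, y, z} : Set K) ∪ {w}) = ⊤ := by rw [← gen3 x y z w, hK]
  obtain ⟨C, N, iC, jC, iN, jN, u, s, a, b, hu, hs, hCt, hb, hN, huniv⟩ :=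
    exists_as_curve p (Ω := Ω) hm K
  have hchC := charP_of p Ω C
  obtain ⟨σC, hσC⟩ : ∃ τ : C →ₐ[Ω] C, τ u = u + 1 ∧ τ s = s := by
    obtain ⟨τ, h1, h2⟩ := huniv C _ _ (transcendental_add hu 1) (by rw [sub_add_em, hs])
    rw [map_one] at h1
    exact ⟨τ, h1, h2⟩
  obtain ⟨ψF, hF1, hF2⟩ := huniv C (u ^ Q) (s ^ Q) (by
    intro h
    exact hu (IsAlgebraic.of_pow hQ0 h)) (by
    have h1 : (u ^ Q) ^ p - u ^ Q = (u ^ p - u) ^ Q := by
      rw [hQ, sub_pow_char_pow, ← pow_mul, ← pow_mul, mul_comm p]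
    rw [h1, hs, ← pow_mul, ← pow_mul, mul_comm m])
  have hfinC : (⊤ : IntermediateField Ω C).FG := by
    rw [← hCt]
    exact fg_adjoin_of_finite (Set.toFinite _)
  have : FiniteDimensional L (T.H 1 C) := T.fin 1 C hfinC
  obtain ⟨c0, hc0, hc0'⟩ := hcurve C u s σC hu hs hCt hσC.1 hσC.2 ξ⁻¹
    (by rw [inv_pow, hξp, inv_one]) (by
      intro h
      exact hξ1 (inv_eq_one.1 h))
  have hcomm : Commute (T.map 1 σC : End L (T.H 1 C)) (T.map 1 ψF) := by
    have h3 : σC.comp ψF = ψF.comp σC := by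
      refine Pool.Agent.Helper75.QC.hom_ext {u, s} hCt _ _ ?_
      rintro c (rfl | hc)
      · rw [AlgHom.comp_apply, AlgHom.comp_apply, hF1, map_pow, hσC.1, map_add, hF1, map_one, hQ,
          add_pow_char_pow, one_pow]
      · rw [Set.mem_singleton_iff] at hc
        rw [hc, AlgHom.comp_apply, AlgHom.comp_apply, hF2, map_pow, hσC.2, hF2]
    show (T.map 1 σC : End L (T.H 1 C)) * T.map 1 ψF = T.map 1 ψF * T.map 1 σC
    have h1 := T.map_comp 1 ψF σC
    have h4 := T.map_comp 1 σC ψF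
    rw [h3, h4] at h1
    exact h1.symm
  obtain ⟨c, l, hc0'', hcσ, hcF⟩ := exists_common
    (fun _ : Unit => (T.map 1 σC : End L (T.H 1 C))) (fun _ => ξ⁻¹)
    (T.map 1 ψF) (fun _ => hcomm) hc0 (fun _ => hc0')
  have hinjC : Function.Injective (T.map 1 ψF) := by
    refine T.inj 1 ψF fun a => alg_of_pow ψF.fieldRange {u, s} hCt Q hQ0 ?_ a
    rintro v (rfl | hv)
    · exact ⟨v, hF1⟩
    · rw [Set.mem_singleton_iff] at hv
      rw [hv]
      exact ⟨s, hF2⟩
  have hl : l ≠ 0 := by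
    rintro rfl
    rw [zero_smul] at hcF
    exact hc0'' (hinjC (by rw [hcF, map_zero]))
  -- the elements `b s` and `b u - a w` are transcendental
  have hst : Transcendental a.fieldRange (b s) := by
    intro h3
    apply hb
    have h4 : IsAlgebraic (algebraicClosure a.fieldRange N) (b u) := by
      obtain ⟨P, hP1, hP2, -⟩ := as_poly p Ω (F := algebraicClosure a.fieldRange N) (b u)
        ⟨b s ^ m, pow_mem ((mem_algebraicClosure_iff).2 h3) m⟩ (by
          have e1 : b u ^ p - b u = b s ^ m := by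
            rw [← map_pow, ← map_sub, hs, map_pow]
          rw [e1]
          rfl)
      exact ⟨P, hP1.ne_zero, hP2⟩
    exact h4.restrictScalars a.fieldRange
  have huni' : Uniruled Ω (adjoin Ω (a '' (adjoin Ω {x, y, z} : Set K) ∪ {b u - a w, b s}) :
      IntermediateField Ω N) 3 := by
    rw [img3]
    refine huni N a (b u - a w) (b s) hst ?_
    have := charP_of p Ω N
    rw [sub_pow_char, ← map_pow b s m, ← hs, map_sub, map_sub, map_pow, map_pow]
    ring
  have hPP : ∀ t ∈ U.map ((TensorProduct.mk L (T.H 2 K) (T.H 1 C)).flip c),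
      TensorProduct.map (T.map 2 φ) (T.map 1 ψF) t ∈
        U.map ((TensorProduct.mk L (T.H 2 K) (T.H 1 C)).flip c) := by
    rintro _ ⟨s, hs, rfl⟩
    refine ⟨l • T.map 2 φ s, Submodule.smul_mem _ _ (hP s hs), ?_⟩
    simp only [LinearMap.flip_apply, TensorProduct.mk_apply, TensorProduct.map_tmul]
    rw [hcF, TensorProduct.tmul_smul, TensorProduct.smul_tmul']
  refine semisimple_of_tensor (T.map 2 φ) (T.map 1 ψF) c hc0'' l hl hcF U hP hPP ?_
  refine T.coniveau hp0 a b x y u e φ ψF hfin hfinC ?_ ?_ hb ?_ ?_ _ ?_ hPP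
  · exact fun k => alg_wild hpr.out.two_le hzz hK hw k
  · intro k
    exact sq_pow_ne hm.pos hu hs k hCt
  · unfold IsFrob
    rw [eq_top_iff, ← hK, adjoin_le_iff]
    rintro s (rfl | rfl | rfl | rfl)
    · exact subset_adjoin _ _ hφ.1
    · exact subset_adjoin _ _ hφ.2.1
    · exact subset_adjoin _ _ hφ.2.2.1
    · exact subset_adjoin _ _ hφ.2.2.2
  · unfold IsFrob
    rw [eq_top_iff, ← hCt, adjoin_le_iff]
    rintro v (rfl | hv)
    · rw [hQ] at hF1
      exact subset_adjoin _ _ hF1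
    · rw [Set.mem_singleton_iff] at hv
      rw [hQ] at hF2
      rw [hv]
      exact subset_adjoin _ _ hF2
  · rintro _ ⟨v, hv, rfl⟩
    simp only [LinearMap.flip_apply, TensorProduct.mk_apply, TensorProduct.lift.tmul,
      LinearMap.compl₁₂_apply]
    exact cross_wild T.toBaseTheory (adjoin Ω {x, y, z}) w hBw hw σ hσ u s hCt a b hN σC hσC
      huni' hξ0 c (hcσ ()) v (hU v hv)

/-- The data of a cyclic cover `M / R`: `M = B(w)`, `w ^ p - w ∈ B = Ω(x, y, z)`, `R ⊆ B`, and the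
threefold `d ^ p - d = s ^ m - (w ^ p - w)` over `B` is uniruled, `m = 2` (`m = 3` if `p = 2`). -/
def RowW (p : ℕ) (Ω R M : Type) [Field Ω] [Field R] [Field M] [Algebra Ω M] [Algebra R M] : Prop :=
  ∃ x y z w : M, z ∈ Acl Ω {x, y} ∧
    (∀ r : R, algebraMap R M r ∈ (adjoin Ω {x, y, z} : IntermediateField Ω M)) ∧
    adjoin Ω {x, y, z, w} = ⊤ ∧
    Module.finrank (adjoin Ω {x, y, z} : IntermediateField Ω M) M = p ∧
    w ^ p - w ∈ (adjoin Ω {x, y, z} : IntermediateField Ω M) ∧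
    ∀ (N : Type) [Field N] [Algebra Ω N] (g : M →ₐ[Ω] N) (d s : N),
      Transcendental g.fieldRange s → d ^ p - d = s ^ aux p - g (w ^ p - w) →
      Uniruled Ω (adjoin Ω {g x, g y, g z, d, s} : IntermediateField Ω N) 3

/-- **The automorphism `w ↦ w + 1`.** -/
theorem exists_shift {R M : Type} [Field R] [Field M] [Algebra Ω R]
    [Algebra Ω M] [Algebra R M] [IsScalarTower Ω R M] [FiniteDimensional R M] [IsGalois R M]
    (B : IntermediateField Ω M) (w : M) (hR : ∀ r : R, algebraMap R M r ∈ B)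
    (hBw : adjoin Ω ((B : Set M) ∪ {w}) = ⊤) (hfin : Module.finrank B M = p)
    (hw : w ^ p - w ∈ B) :
    ∃ g : M ≃ₐ[R] M, (∀ k ∈ B, g k = k) ∧ g w = w + 1 := by
  classical
  let _ : Algebra R B := RingHom.toAlgebra
    ({ toFun := fun r => ⟨algebraMap R M r, hR r⟩
       map_one' := Subtype.ext (map_one _)
       map_mul' := fun a b => Subtype.ext (map_mul _ a b)
       map_zero' := Subtype.ext (map_zero _)
       map_add' := fun a b => Subtype.ext (map_add _ a b) } : R →+* B)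
  have : IsScalarTower R B M := IsScalarTower.of_algebraMap_eq fun r => rfl
  have hfd : FiniteDimensional B M := FiniteDimensional.right R B M
  have hgal : IsGalois B M := IsGalois.tower_top_of_isGalois R B M
  have hcard : Nat.card (M ≃ₐ[B] M) = p := by
    rw [IsGalois.card_aut_eq_finrank, hfin]
  have hnt : Nontrivial (M ≃ₐ[B] M) := by
    have hfi : Finite (M ≃ₐ[B] M) := Nat.finite_of_card_ne_zero (by rw [hcard]; exact hpr.out.ne_zero)
    rw [← Finite.one_lt_card_iff_nontrivial, hcard]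
    exact hpr.out.one_lt
  obtain ⟨τ, hτ⟩ := exists_ne (1 : M ≃ₐ[B] M)
  have hτB : ∀ k ∈ B, τ k = k := fun k hk => τ.commutes ⟨k, hk⟩
  obtain ⟨c, hc⟩ : ∃ c : ZMod p, τ w = w + em p Ω M c := by
    apply exists_em_of_eq p Ω
    rw [← map_pow, ← map_sub, hτB _ hw]
  let τ' : M →ₐ[Ω] M := { (τ : M →+* M) with
    commutes' := fun r => hτB _ (B.algebraMap_mem r) }
  have hc0 : c ≠ 0 := by
    rintro rfl
    apply hτ
    rw [map_zero, add_zero] at hc
    have h1 : τ' = AlgHom.id Ω M := by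
      refine Pool.Agent.Helper75.QC.hom_ext ((B : Set M) ∪ {w}) hBw _ _ ?_
      rintro e (he | he)
      · exact hτB e he
      · rw [Set.mem_singleton_iff] at he
        rw [he]
        exact hc
    exact AlgEquiv.ext fun a => DFunLike.congr_fun h1 a
  have hpow : ∀ n : ℕ, (τ ^ n) w = w + em p Ω M (n * c) ∧ ∀ k ∈ B, (τ ^ n) k = k := by
    intro n
    induction n with
    | zero => simp
    | succ n ih =>
      refine ⟨?_, fun k hk => ?_⟩
      · have h2 : τ (em p Ω M (n * c)) = em p Ω M (n * c) := hτB _ (B.algebraMap_mem _)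
        rw [pow_succ', AlgEquiv.mul_apply, ih.1, map_add, h2, hc, add_assoc, ← map_add]
        congr 2
        push_cast
        ring
      · rw [pow_succ', AlgEquiv.mul_apply, ih.2 k hk, hτB k hk]
  refine ⟨(τ ^ (c⁻¹).val).restrictScalars R, (hpow _).2, ?_⟩
  show (τ ^ (c⁻¹).val) w = w + 1
  rw [(hpow _).1, ZMod.natCast_val, ZMod.cast_id, inv_mul_cancel₀ hc0, map_one]

/-- **The criterion.** -/
theorem prim_rowW [IsAlgClosed Ω] (T : Theory p Ω L) {R M : Type} [Field R] [Field M] [Algebra Ω R]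
    [Algebra Ω M] [Algebra R M] [IsScalarTower Ω R M] [FiniteDimensional R M] [IsGalois R M]
    (h : RowW p Ω R M) : PrimGood T R M := by
  classical
  obtain ⟨X, Y, Z, w, hZ, hR, htop, hfin, hwn, huni⟩ := h
  have hBw : adjoin Ω ((adjoin Ω {X, Y, Z} : Set M) ∪ {w}) = ⊤ := by rw [← gen3 X Y Z w, htop]
  obtain ⟨g, hgB, hgw⟩ := exists_shift (p := p) (adjoin Ω {X, Y, Z}) w hR hBw hfin hwn
  have hch := charP_of p Ω M
  have hpow : ∀ n : ℕ, (g ^ n) w = w + (n : M) ∧ ∀ k ∈ adjoin Ω {X, Y, Z}, (g ^ n) k = k := by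
    intro n
    induction n with
    | zero => simp
    | succ n ih =>
      refine ⟨?_, fun k hk => ?_⟩
      · rw [pow_succ', AlgEquiv.mul_apply, ih.1, map_add, hgw, map_natCast]
        push_cast
        ring
      · rw [pow_succ', AlgEquiv.mul_apply, ih.2 k hk, hgB k hk]
  have hgp : g ^ p = 1 := by
    have h1 : autHom Ω (g ^ p) = AlgHom.id Ω M := by
      refine Pool.Agent.Helper75.QC.hom_ext ((adjoin Ω {X, Y, Z} : Set M) ∪ {w}) hBw _ _
        fun b hb => ?_
      show (g ^ p) b = b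
      rcases hb with hb | hb
      · exact (hpow p).2 b hb
      · rw [Set.mem_singleton_iff] at hb
        rw [hb, (hpow p).1, CharP.cast_eq_zero, add_zero]
    exact AlgEquiv.ext fun a => DFunLike.congr_fun h1 a
  have hg1 : g ≠ 1 := by
    intro h
    rw [h, AlgEquiv.one_apply] at hgw
    exact one_ne_zero (left_eq_add.1 hgw)
  refine ⟨{X, Y, Z, w}, Set.toFinite _, fun e φ he hφ χ U hU hP => ?_⟩
  by_cases hU0 : ∀ s ∈ U, s = 0
  · have h1 : (T.map 2 φ : Module.End L (T.H 2 M)).restrict hP = 0 := by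
      ext v
      rw [hU0 _ (((T.map 2 φ : Module.End L (T.H 2 M)).restrict hP) v).2]
      rfl
    rw [h1]
    exact Module.End.isSemisimple_zero
  push Not at hU0
  obtain ⟨s0, hs0, hs0'⟩ := hU0
  have hχ : Function.Injective χ := (hU s0 hs0).1
  refine wild_eigen3 T (aux_prime p) (Helper35.WW.wildCurve_aux T.toBaseTheory) X Y Z w hZ htop
    hwn huni (autHom Ω g) ⟨hgB, hgw⟩ φ
    ⟨hφ X (by simp), hφ Y (by simp), hφ Z (by simp), hφ w (by simp)⟩ (ξ := (χ g : L)) ?_ ?_ U
    (fun t ht => (hU t ht).2 g) hP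
  · rw [← Units.val_pow_eq_pow_val, ← map_pow, hgp, map_one, Units.val_one]
  · intro h
    apply hg1
    apply hχ
    rw [map_one]
    exact Units.ext h

end Pool.Agent.Helper73.WT
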