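import Pool.Agent.Helper73.V7.Ell
import Pool.Agent.Helper73.WT.Prim

/-! Project WT. The fields `Ω(x, y, w)`, `F(x, y, w ^ p - w) = 0`, where the degree of `F` for the
weights `a`, `b`, `2 * c` of `x`, `y`, `w ^ p - w` is at most `a + b + c`. -/

set_option autoImplicit false

namespace Pool.Agent.Helper73.WT

open IntermediateField MvPolynomial Pool.Agent.Helper75.QC Pool.Agent.Helper35.V7
  Pool.Agent.Helper9.TR Pool.Agent.Helper40.SD Pool.Agent.Helper15.QM Pool.Agent.Helper73.V7
  Pool.Agent.Helper73.QX Pool.Agent.Helper73.QW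

section

variable {Ω N : Type} [Field Ω] [Field N] [Algebra Ω N]

/-- The threefold `F(x, y, t) = 0`, where `t` is a quadratic polynomial in `v` over `Ω(σ)`. -/
theorem uni_quad [IsAlgClosed Ω] {a b c : ℕ} (hpos : 0 < a + b + c)
    (F : MvPolynomial (Fin 3) Ω) (hF : F ≠ 0) (hd : WLE ![a, b, 2 * c] (a + b + c) F)
    (x y t v σ : N) (α β γ : N) (hα : α ∈ (adjoin Ω {σ} : IntermediateField Ω N))
    (hβ : β ∈ (adjoin Ω {σ} : IntermediateField Ω N))
    (hγ : γ ∈ (adjoin Ω {σ} : IntermediateField Ω N)) (hα0 : α ≠ 0)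
    (h0 : aeval ![x, y, t] F = 0) (heq : t = α * v ^ 2 + β * v + γ) :
    Uniruled Ω (adjoin Ω {x, y, t, v, σ} : IntermediateField Ω N) 3 := by
  classical
  set E := AlgebraicClosure N
  let ι : N →ₐ[Ω] E := IsScalarTower.toAlgHom Ω N E
  set M : IntermediateField Ω E := AF Ω {ι σ} with hM
  have hσM : ι σ ∈ M := subset_AF _ (by simp)
  have hle : ∀ k ∈ (adjoin Ω {σ} : IntermediateField Ω N), ι k ∈ M := by
    intro k hk
    have h1 : (adjoin Ω {σ} : IntermediateField Ω N) ≤ M.comap ι := by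
      rw [adjoin_le_iff]
      rintro s (rfl : s = σ)
      exact hσM
    exact h1 hk
  obtain ⟨α', hα'⟩ : ∃ k : M, (k : E) = ι α := ⟨⟨ι α, hle α hα⟩, rfl⟩
  obtain ⟨β', hβ'⟩ : ∃ k : M, (k : E) = ι β := ⟨⟨ι β, hle β hβ⟩, rfl⟩
  obtain ⟨γ', hγ'⟩ : ∃ k : M, (k : E) = ι γ := ⟨⟨ι γ, hle γ hγ⟩, rfl⟩
  have hα'0 : α' ≠ 0 := by
    rintro rfl
    apply hα0
    apply (map_eq_zero ι).1
    rw [← hα']
    rfl
  set g : Fin 3 → MvPolynomial (Fin 3) M :=
    ![X 0, X 1, C α' * X 2 ^ 2 + C β' * X 2 + C γ'] with hg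
  set F' : MvPolynomial (Fin 3) M := bind₁ g (map (algebraMap Ω M) F) with hF'
  have hte : ι t = (α' : E) * ι v ^ 2 + β' * ι v + γ' := by
    rw [heq, hα', hβ', hγ']
    simp only [map_add, map_mul, map_pow]
  have hU : Uniruled M (adjoin M (Set.range ![ι x, ι y, ι v]) : IntermediateField M E) 2 := by
    refine uni_surface ![a, b, c] (by rw [sum_three]; exact hpos) F' ?_ ?_ _ ?_
    · intro h
      apply hF
      have h1 : map (algebraMap Ω M) F = 0 := by
        refine MvPolynomial.funext fun p => ?_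
        obtain ⟨r, hr⟩ : ∃ r : M, α' * r ^ 2 + β' * r + γ' = p 2 := by
          obtain ⟨r, hr⟩ := IsAlgClosed.exists_root
            (Polynomial.C α' * Polynomial.X ^ 2 + Polynomial.C β' * Polynomial.X +
              Polynomial.C (γ' - p 2) : Polynomial M) (by
              rw [Polynomial.degree_quadratic hα'0]
              decide)
          refine ⟨r, ?_⟩
          simp only [Polynomial.IsRoot.def, Polynomial.eval_add, Polynomial.eval_mul,
            Polynomial.eval_pow, Polynomial.eval_X, Polynomial.eval_C] at hr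
          linear_combination hr
        have h2 := congrArg (eval ![p 0, p 1, r]) h
        rw [map_zero, hF', eval, eval₂Hom_bind₁] at h2
        rw [map_zero, ← h2]
        show eval₂Hom (RingHom.id M) p _ = _
        congr 2
        funext i
        fin_cases i
        · simp [hg]
        · simp [hg]
        · simp [hg, hr]
      exact map_injective _ (algebraMap Ω M).injective (h1.trans (map_zero _).symm)
    · rw [sum_three]
      refine wle_bind (u := ![a, b, 2 * c]) (fun m hm => hd m (support_map_subset _ _ hm)) g ?_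
      intro k
      fin_cases k
      · exact wle_X 0
      · exact wle_X 1
      · have e0 : WLE ![a, b, c] c (X 2 : MvPolynomial (Fin 3) M) := wle_X 2
        refine WLE.add (WLE.add ?_ ?_) (wle_mono (Nat.zero_le _) (wle_C _))
        · refine wle_mono ?_ (wle_mul (wle_C (w := ![a, b, c]) α') (wle_pow e0 2))
          show 0 + 2 * c ≤ 2 * c
          omega
        · refine wle_mono ?_ (wle_mul (wle_C (w := ![a, b, c]) β') e0)
          show 0 + c ≤ 2 * c
          omega
    · rw [hF', aeval_bind₁]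
      have h1 : (fun i => aeval ![ι x, ι y, ι v] (g i)) = ι ∘ ![x, y, t] := by
        funext i
        fin_cases i
        · simp [hg]
        · simp [hg]
        · simp only [hg]
          show aeval ![ι x, ι y, ι v] (C α' * X 2 ^ 2 + C β' * X 2 + C γ') = ι t
          rw [hte, map_add, map_add, map_mul, map_mul, map_pow, aeval_C, aeval_C, aeval_C, aeval_X]
          rfl
      rw [h1, aeval_map_algebraMap]
      have h2 : aeval (ι ∘ ![x, y, t]) F = ι (aeval ![x, y, t] F) := by
        rw [← AlgHom.comp_apply, comp_aeval]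
        rfl
      rw [h2, h0, map_zero]
  have hU' : Uniruled M (adjoin M (ι '' {x, y, t, v}) : IntermediateField M E) 2 := by
    refine uniruled_adjoin (AlgHom.id M E) _ _ ?_ hU
    rw [range_three]
    have mx : ι x ∈ adjoin M {ι x, ι y, ι v} := subset_adjoin _ _ (by simp)
    have my : ι y ∈ adjoin M {ι x, ι y, ι v} := subset_adjoin _ _ (by simp)
    have mv : ι v ∈ adjoin M {ι x, ι y, ι v} := subset_adjoin _ _ (by simp)
    rintro _ ⟨d, (rfl | rfl | rfl | rfl), rfl⟩
    · exact mx
    · exact my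
    · change ι d ∈ _
      rw [hte]
      exact add_mem (add_mem (mul_mem ((adjoin M {ι x, ι y, ι v}).algebraMap_mem α')
        (pow_mem mv 2)) (mul_mem ((adjoin M {ι x, ι y, ι v}).algebraMap_mem β') mv))
        ((adjoin M {ι x, ι y, ι v}).algebraMap_mem γ')
    · exact mv
  have h3 := uni_family ι σ {x, y, t, v} hU'
  refine uniruled_adjoin (AlgHom.id Ω N) _ _ ?_ h3
  rintro d (rfl | rfl | rfl | rfl | rfl)
  · exact subset_adjoin _ _ (by simp)
  · exact subset_adjoin _ _ (by simp)
  · exact subset_adjoin _ _ (by simp)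
  · exact subset_adjoin _ _ (by simp)
  · exact subset_adjoin _ _ (by simp)

/-- the three generators in another order -/
theorem set_perm {N : Type} (e : Fin 3 ≃ Fin 3) (z : Fin 3 → N) :
    ({z (e 0), z (e 1), z (e 2)} : Set N) = {z 0, z 1, z 2} := by
  have h1 : ∀ q : Fin 3 → N, Set.range q = {q 0, q 1, q 2} := by
    intro q
    ext k
    constructor
    · rintro ⟨i, rfl⟩
      fin_cases i
      · exact Or.inl rfl
      · exact Or.inr (Or.inl rfl)
      · exact Or.inr (Or.inr rfl)
    · rintro (rfl | rfl | rfl)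
      · exact ⟨0, rfl⟩
      · exact ⟨1, rfl⟩
      · exact ⟨2, rfl⟩
  have h2 := h1 (z ∘ e)
  rw [e.surjective.range_comp, h1 z] at h2
  exact h2.symm

end

variable {p : ℕ} [hpr : Fact p.Prime] {Ω : Type} [Field Ω] [Algebra (ZMod p) Ω]

/-- **The wild base change.** `M = Ω(x, y, w)`, `R ⊆ B = Ω(x, y, w ^ p - w)`, `p = [M : B]`, and
`F(x, y, w ^ p - w) = 0`. -/
theorem pull_rowW [IsAlgClosed Ω] {R M : Type} [Field R] [Field M] [Algebra Ω M] [Algebra R M]
    (a b c : ℕ) (F : MvPolynomial (Fin 3) Ω) (x y w : M)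
    (hR : ∀ r : R, algebraMap R M r ∈ adjoin Ω {x, y, w ^ p - w}) (hM : adjoin Ω {x, y, w} = ⊤)
    (hn : Module.finrank (adjoin Ω {x, y, w ^ p - w}) M = p) (hpos : 0 < a + b + c) (hF : F ≠ 0)
    (hd : ∀ m ∈ F.support, a * m 0 + b * m 1 + 2 * c * m 2 ≤ a + b + c)
    (h0 : aeval ![x, y, w ^ p - w] F = 0) : RowW p Ω R M := by
  classical
  have hd' : WLE ![a, b, 2 * c] (a + b + c) F := by
    intro m hm
    rw [Fin.sum_univ_three]
    exact hd m hm
  set t := w ^ p - w with ht
  have mt : t ∈ (adjoin Ω {x, y, t} : IntermediateField Ω M) := subset_adjoin _ _ (by simp)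
  obtain ⟨e, he⟩ := acl_of_rel F hF ![x, y, t] h0
  have hs0 : ({![x, y, t] (e 0), ![x, y, t] (e 1), ![x, y, t] (e 2)} : Set M) = {x, y, t} :=
    set_perm e ![x, y, t]
  refine ⟨![x, y, t] (e 0), ![x, y, t] (e 1), ![x, y, t] (e 2), w, he, ?_, ?_, ?_, ?_,
    fun N _ _ g d s hs heq => ?_⟩
  · rw [hs0]
    exact hR
  · rw [eq_top_iff, ← hM, adjoin_le_iff]
    have h1 : ({x, y, t} : Set M) ⊆ {![x, y, t] (e 0), ![x, y, t] (e 1), ![x, y, t] (e 2), w} := by
      rw [← hs0]
      rintro k (rfl | rfl | rfl)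
      · exact Or.inl rfl
      · exact Or.inr (Or.inl rfl)
      · exact Or.inr (Or.inr (Or.inl rfl))
    rintro k (rfl | rfl | rfl)
    · exact subset_adjoin _ _ (h1 (by simp))
    · exact subset_adjoin _ _ (h1 (by simp))
    · exact subset_adjoin _ _ (by simp)
  · rw [hs0]
    exact hn
  · rw [hs0]
    exact mt
  · have hs1 : ∀ u v : N, ({g (![x, y, t] (e 0)), g (![x, y, t] (e 1)), g (![x, y, t] (e 2)), u, v} :
        Set N) = {g x, g y, g t, u, v} := by
      intro u v
      have h1 := set_perm e (g ∘ ![x, y, t])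
      have e1 : ∀ (p q r : N), ({p, q, r, u, v} : Set N) = {p, q, r} ∪ {u, v} := by
        intro p q r
        ext k
        simp only [Set.mem_insert_iff, Set.mem_singleton_iff, Set.mem_union]
        tauto
      have h2 : ({g (![x, y, t] (e 0)), g (![x, y, t] (e 1)), g (![x, y, t] (e 2))} : Set N) =
          {g x, g y, g t} := h1
      rw [e1, e1, h2]
    have h4 : aeval ![g x, g y, g t] F = 0 := by
      have h5 : ![g x, g y, g t] = g ∘ ![x, y, t] := by
        funext i
        fin_cases i <;> rfl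
      rw [h5]
      have h6 : aeval (g ∘ ![x, y, t]) F = g (aeval ![x, y, t] F) := by
        rw [← AlgHom.comp_apply, comp_aeval]
        rfl
      rw [h6, h0, map_zero]
    rw [← ht] at heq
    rw [hs1]
    by_cases hp2 : p = 2
    · -- `t = s ^ 3 - d ^ 2 + d`
      have haux : aux p = 3 := by rw [aux, if_pos hp2]
      rw [haux, hp2] at heq
      have ms : s ∈ (adjoin Ω {s} : IntermediateField Ω N) := subset_adjoin _ _ rfl
      have h5 := uni_quad hpos F hF hd' (g x) (g y) (g t) d s (-1) 1 (s ^ 3)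
        (neg_mem (one_mem _)) (one_mem _) (pow_mem ms 3)
        (neg_ne_zero.2 one_ne_zero) h4 (by linear_combination heq)
      exact h5
    · -- `t = s ^ 2 - (d ^ p - d)`
      have haux : aux p = 2 := by rw [aux, if_neg hp2]
      rw [haux] at heq
      have md : d ∈ (adjoin Ω {d} : IntermediateField Ω N) := subset_adjoin _ _ rfl
      have h5 := uni_quad hpos F hF hd' (g x) (g y) (g t) s d 1 0 (-(d ^ p - d))
        (one_mem _) (zero_mem _) (neg_mem (sub_mem (pow_mem md p) md)) one_ne_zero h4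
        (by linear_combination heq)
      have h6 : ({g x, g y, g t, s, d} : Set N) = {g x, g y, g t, d, s} := by
        ext k
        simp only [Set.mem_insert_iff, Set.mem_singleton_iff]
        tauto
      rw [h6] at h5
      exact h5

/-- **The elliptic surfaces** `y ^ 2 + a₁ x y + a₃ y = x ^ 3 + a₂ x ^ 2 + a₄ x + a₆`, where `aᵢ` is a
polynomial in `w ^ p - w` of degree at most `i / 2`. -/
theorem elliptic_rowW [IsAlgClosed Ω] {R M : Type} [Field R] [Field M] [Algebra Ω M] [Algebra R M]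
    (a₁ a₂ a₃ a₄ a₆ : Polynomial Ω) (h₁ : 2 * a₁.natDegree ≤ 1)
    (h₂ : 2 * a₂.natDegree ≤ 2) (h₃ : 2 * a₃.natDegree ≤ 3) (h₄ : 2 * a₄.natDegree ≤ 4)
    (h₆ : 2 * a₆.natDegree ≤ 6) (x y w : M)
    (hR : ∀ r : R, algebraMap R M r ∈ adjoin Ω {x, y, w ^ p - w}) (hM : adjoin Ω {x, y, w} = ⊤)
    (hn : Module.finrank (adjoin Ω {x, y, w ^ p - w}) M = p)
    (h : y ^ 2 + Polynomial.aeval (w ^ p - w) a₁ * x * y + Polynomial.aeval (w ^ p - w) a₃ * y =
      x ^ 3 + Polynomial.aeval (w ^ p - w) a₂ * x ^ 2 + Polynomial.aeval (w ^ p - w) a₄ * x +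
        Polynomial.aeval (w ^ p - w) a₆) : RowW p Ω R M := by
  obtain ⟨a, b, c, F, hpos, hF, hd, h0⟩ := elliptic_data 1 a₁ a₂ a₃ a₄ a₆ h₁ h₂ h₃ h₄ h₆ x y
    (w ^ p - w) (by simp only [pow_one]; exact h)
  rw [pow_one] at h0
  exact pull_rowW a b c F x y w hR hM hn hpos hF hd h0

end Pool.Agent.Helper73.WT
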