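import Pool.Agent.Helper73.SS.CoverEx
import Pool.Agent.Helper75.QC.Defs

/-! Finitely generated subfields. -/

set_option autoImplicit false

namespace Pool.Agent.Helper73.WT

open IntermediateField

/-- `K` is finitely generated over `Ω` and algebraic over `M`: `M` is finitely generated. -/
theorem fg_sub {Ω M K : Type} [Field Ω] [Field M] [Field K] [Algebra Ω M] [Algebra Ω K]
    [Algebra M K] [IsScalarTower Ω M K] [Algebra.IsAlgebraic M K]
    (hK : (⊤ : IntermediateField Ω K).FG) : (⊤ : IntermediateField Ω M).FG := by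
  classical
  have hE : Algebra.EssFiniteType Ω K := fg_top_iff.1 hK
  have hfin : FinTrdeg Ω M := by
    rw [finTrdeg_iff_trdeg]
    have h1 := trdeg_add_eq Ω M (A := K)
    rw [trdeg_eq_zero_iff.2 (inferInstance : Algebra.IsAlgebraic M K), add_zero] at h1
    rw [h1]
    exact trdeg_lt_aleph0 Ω K
  obtain ⟨E, hEfg, halg⟩ := FinTrdeg.exists_fg_isAlgebraic Ω M
  have h2 : Algebra.IsAlgebraic E K := Algebra.IsAlgebraic.trans E M K
  have h3 : Algebra.EssFiniteType E K := Algebra.EssFiniteType.of_comp Ω E K
  have h4 : Module.Finite E K := Algebra.finite_of_essFiniteType_of_isAlgebraic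
  have h5 : Module.Finite E M :=
    Module.Finite.of_injective (IsScalarTower.toAlgHom E M K).toLinearMap
      (algebraMap M K).injective
  have h6 : Algebra.EssFiniteType Ω E := essFiniteType_iff.2 hEfg
  have h7 : Algebra.EssFiniteType Ω M := Algebra.EssFiniteType.comp Ω E M
  exact fg_top_iff.2 h7

end Pool.Agent.Helper73.WT
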