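import Pool.Agent.Helper73.QQ.Main
import Pool.Agent.Helper73.WT.Pull
import Pool.Agent.Helper75.WC.GoodPr

/-! Project WT. Abelian covers with uniruled wild twists: Frobenius is semisimple. -/

set_option autoImplicit false

namespace Pool.Agent.Helper73.WT

open IntermediateField Module Pool.Agent.Helper75.QC Pool.Agent.Helper75.TC Pool.Agent.Helper75.WC
  Pool.Agent.Helper73.QX Pool.Agent.Helper73.QW

theorem exists_pow_eq {p : ℕ} [hp : Fact p.Prime] {Ω : Type} [Field Ω] [Algebra (ZMod p) Ω]
    [Algebra.IsAlgebraic (ZMod p) Ω] (c : Ω) : ∃ k : ℕ, 0 < k ∧ c ^ p ^ k = c := by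
  have hint : IsIntegral (ZMod p) c := (Algebra.IsAlgebraic.isAlgebraic c).isIntegral
  have hfd' : FiniteDimensional (ZMod p) (adjoin (ZMod p) {c}) :=
    adjoin.finiteDimensional hint
  have hf : Finite (adjoin (ZMod p) {c}) := Module.finite_of_finite (ZMod p)
  have : Fintype (adjoin (ZMod p) {c}) := Fintype.ofFinite _
  have : CharP (adjoin (ZMod p) {c}) p :=
    charP_of_injective_algebraMap (algebraMap (ZMod p) (adjoin (ZMod p) {c})).injective p
  obtain ⟨k, -, hk⟩ := FiniteField.card (adjoin (ZMod p) {c}) p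
  refine ⟨k, k.pos, ?_⟩
  have h1 := FiniteField.pow_card (⟨c, subset_adjoin _ _ rfl⟩ : adjoin (ZMod p) {c})
  rw [hk] at h1
  exact congrArg Subtype.val h1

variable {p : ℕ} [hpr : Fact p.Prime] {Ω L : Type} [Field Ω] [Algebra (ZMod p) Ω]
  [Field L] [CharZero L] [IsAlgClosed L]

/-- **The theorem.** -/
theorem main [IsAlgClosure (ZMod p) Ω] (T : Theory p Ω L) {K : Type} [Field K] [Algebra Ω K]
    (R : IntermediateField Ω K) [FiniteDimensional R K] [IsGalois R K]
    (hab : ∀ g h : K ≃ₐ[R] K, g * h = h * g)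
    (hM : ∀ M : IntermediateField R K, IsCyclic (M ≃ₐ[R] M) →
      ((⊤ : IntermediateField Ω M).FG ∧ Good T M) ∨ RowW p Ω R M) {K₀ : Type} [Field K₀]
    [Algebra Ω K₀] (hfin : (⊤ : IntermediateField Ω K₀).FG) (ι : K₀ →ₐ[Ω] K)
    (hι : ∀ a : K, IsAlgebraic ι.fieldRange a) : Good T K₀ := by
  have hch : CharP Ω p := charP_of_injective_algebraMap (algebraMap (ZMod p) Ω).injective p
  have hcl : IsAlgClosed Ω := IsAlgClosure.isAlgClosed (ZMod p)
  have hal : Algebra.IsAlgebraic (ZMod p) Ω := IsAlgClosure.isAlgebraic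
  have hΩ : ∀ c : Ω, ∃ k : ℕ, 0 < k ∧ c ^ p ^ k = c := exists_pow_eq
  have hfg' : ∀ M : IntermediateField R K, IsCyclic (M ≃ₐ[R] M) →
      (⊤ : IntermediateField Ω M).FG := by
    intro M hc
    rcases hM M hc with h | ⟨x, y, z, w, -, -, hM', -⟩
    · exact h.1
    · rw [← hM']
      exact fg_adjoin_of_finite (Set.toFinite _)
  have hR : (⊤ : IntermediateField Ω R).FG := by
    have hbot : IsCyclic ((⊥ : IntermediateField R K) ≃ₐ[R] (⊥ : IntermediateField R K)) := by
      have h1 : Subsingleton ((⊥ : IntermediateField R K) ≃ₐ[R] (⊥ : IntermediateField R K)) := by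
        refine ⟨fun g h => AlgEquiv.ext fun a => ?_⟩
        obtain ⟨c, hc⟩ := mem_bot.1 a.2
        have h2 : a = algebraMap R (⊥ : IntermediateField R K) c := Subtype.ext hc.symm
        rw [h2, g.commutes, h.commutes]
      infer_instance
    obtain ⟨S, hS⟩ := hfg' ⊥ hbot
    let i : (⊥ : IntermediateField R K) →ₐ[Ω] R :=
      { toFun := fun a => botEquiv R K a
        map_one' := map_one _
        map_mul' := map_mul _
        map_zero' := map_zero _
        map_add' := map_add _
        commutes' := fun c => (botEquiv R K).commutes (algebraMap Ω R c) }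
    have h1 : adjoin Ω (i '' (S : Set _)) = ⊤ := by
      rw [← adjoin_map, hS, eq_top_iff]
      intro x _
      obtain ⟨a, ha⟩ := (botEquiv R K).surjective x
      exact ⟨a, mem_top, ha⟩
    rw [← h1]
    exact fg_adjoin_of_finite (S.finite_toSet.image _)
  have hM' : ∀ M : IntermediateField R K, IsCyclic (M ≃ₐ[R] M) → PrimGood T R M := by
    intro M hc
    have hG : IsGalois R M := (exists_restrict hab M).1
    rcases hM M hc with h | h
    · exact Good.prim h.1 h.2
    · exact prim_rowW T h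
  have hG := good_abelian_prim hΩ T R hR hab hM'
  obtain ⟨Q, hQ, hQ'⟩ := exists_gen R hR (⊤ : IntermediateField R K)
  have hKfg : (⊤ : IntermediateField Ω K).FG := by
    have h1 : adjoin Ω Q = ⊤ := by
      rw [hQ']
      rfl
    rw [← h1]
    exact fg_adjoin_of_finite hQ
  exact hG.of_hom hΩ T hfin hKfg ι hι

end Pool.Agent.Helper73.WT
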