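import Pool.Agent.Helper73.QX.Good
import Pool.Agent.Helper75.WC.Prim

/-! Project WT. The cross product of a class of `M = B(w)`, `w ^ p - w ∈ B`, and a class of the curve
`u ^ p - u = s ^ m`, where `B` is the function field of any surface. -/

set_option autoImplicit false

namespace Pool.Agent.Helper73.WT

open IntermediateField Pool.Agent.Helper75.QC Pool.Agent.Helper73.QX Pool.Agent.Helper73.QW

section

variable {Ω : Type} [Field Ω] {K : Type} [Field K] [Algebra Ω K]

/-- the powers of `σ` -/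
theorem pow_sigma {B : IntermediateField Ω K} {w : K} {σ : K →ₐ[Ω] K}
    (hσ : (∀ k ∈ B, σ k = k) ∧ σ w = w + 1) (n : ℕ) :
    (∀ k ∈ B, (σ ^ n) k = k) ∧ (σ ^ n) w = w + (n : K) := by
  induction n with
  | zero => simp
  | succ n ih =>
    refine ⟨fun k hk => ?_, ?_⟩
    · rw [pow_succ', AlgHom.mul_apply, ih.1 k hk, hσ.1 k hk]
    · rw [pow_succ', AlgHom.mul_apply, ih.2, map_add, map_natCast, hσ.2]
      push_cast
      ring

end

variable {p : ℕ} [hp : Fact p.Prime] {Ω L : Type} [Field Ω] [Algebra (ZMod p) Ω] [Field L]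

omit hp in
/-- the powers of an endomorphism on an eigenclass -/
theorem map_pow_eigen (T : Cohomology Ω L) (i : ℕ) {K : Type} [Field K] [Algebra Ω K]
    (σ : K →ₐ[Ω] K) {ξ : L} {t : T.H i K} (ht : T.map i σ t = ξ • t) (n : ℕ) :
    T.map i (σ ^ n) t = ξ ^ n • t := by
  induction n with
  | zero =>
    rw [pow_zero, pow_zero, one_smul]
    exact LinearMap.congr_fun (T.map_id i K) t
  | succ n ih =>
    have h5 : T.map i (σ ^ (n + 1)) t = T.map i σ (T.map i (σ ^ n) t) := by
      rw [pow_succ']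
      exact LinearMap.congr_fun (T.map_comp i (σ ^ n) σ) t
    rw [h5, ih, map_smul, ht, smul_smul, pow_succ]

theorem em_val {E : Type} [Field E] [Algebra Ω E] (c : ZMod p) :
    em p Ω E c = (c.val : E) := by
  have h6 : em p Ω E c = em p Ω E ((c.val : ℕ) : ZMod p) := by
    rw [ZMod.natCast_val, ZMod.cast_id]
  rw [h6, map_natCast]

/-- **The cross product vanishes.** -/
theorem cross_wild (T : BaseTheory Ω L) {K C N : Type} [Field K] [Algebra Ω K] [Field C]
    [Algebra Ω C] [Field N] [Algebra Ω N] (B : IntermediateField Ω K) (w : K)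
    (hBw : adjoin Ω ((B : Set K) ∪ {w}) = ⊤) (hw : w ^ p - w ∈ B) (σ : K →ₐ[Ω] K)
    (hσ : (∀ k ∈ B, σ k = k) ∧ σ w = w + 1) (u s : C) (hCt : adjoin Ω {u, s} = ⊤)
    (a : K →ₐ[Ω] N) (b : C →ₐ[Ω] N) (hN : adjoin Ω (Set.range a ∪ {b u, b s}) = ⊤)
    (σC : C →ₐ[Ω] C) (hσC : σC u = u + 1 ∧ σC s = s)
    (huni : Uniruled Ω (adjoin Ω (a '' (B : Set K) ∪ {b u - a w, b s}) :
      IntermediateField Ω N) 3) {ξ : L} (hξ : ξ ≠ 0)
    (z : T.H 1 C) (hz : T.map 1 σC z = ξ⁻¹ • z) (t : T.H 2 K) (ht : T.map 2 σ t = ξ • t) :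
    T.cup N (T.map 2 a t) (T.map 1 b z) = 0 := by
  obtain ⟨N0, hN0⟩ : ∃ N0 : IntermediateField Ω N,
    N0 = adjoin Ω (a '' (B : Set K) ∪ {b u - a w, b s}) := ⟨_, rfl⟩
  rw [← hN0] at huni
  have hB0 : ∀ k ∈ B, a k ∈ N0 := by
    intro k hk
    rw [hN0]
    exact subset_adjoin _ _ (Or.inl ⟨k, hk, rfl⟩)
  have hd0 : b u - a w ∈ N0 := by
    rw [hN0]
    exact subset_adjoin _ _ (by simp)
  have hs0 : b s ∈ N0 := by
    rw [hN0]
    exact subset_adjoin _ _ (by simp)
  have hw0 : a w ^ p - a w ∈ N0 := by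
    rw [← map_pow, ← map_sub]
    exact hB0 _ hw
  obtain ⟨g1, g2⟩ := galois_of (p := p) (fun _ : Fin 1 => a w) N0 (fun _ => hw0) (by
    intro M hM hwM
    have hra : ∀ e, a e ∈ M := by
      intro e
      have h3 : adjoin Ω ((B : Set K) ∪ {w}) ≤ M.comap a := by
        rw [adjoin_le_iff]
        rintro c (hc | hc)
        · exact hM (hB0 c hc)
        · rw [Set.mem_singleton_iff] at hc
          rw [hc]
          exact hwM 0
      exact h3 (by rw [hBw]; exact mem_top)
    rw [eq_top_iff, ← hN, adjoin_le_iff]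
    rintro c (⟨e, rfl⟩ | rfl | hc)
    · exact hra e
    · have h1 := M.add_mem (hM hd0) (hra w)
      rwa [sub_add_cancel] at h1
    · rw [Set.mem_singleton_iff] at hc
      rw [hc]
      exact hM hs0)
  refine cross_general T a b N0 huni t z ?_
  intro τ
  have hfix : ∀ e ∈ N0, τ.restrictScalars Ω e = e := fun e he => τ.commutes ⟨e, he⟩
  obtain ⟨c, hc⟩ : ∃ c : ZMod p, τ.restrictScalars Ω (a w) = a w + em p Ω N c := by
    apply exists_em_of_eq p Ω
    rw [← map_pow, ← map_sub, hfix _ hw0]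
  rw [em_val] at hc
  refine ⟨σ ^ c.val, σC ^ c.val, 1, ?_, ?_, one_mul 1, ξ ^ c.val, pow_ne_zero _ hξ, ?_, ?_⟩
  · refine Pool.Agent.Helper75.QC.hom_ext ((B : Set K) ∪ {w}) hBw _ _ ?_
    rintro e (he | he)
    · rw [AlgHom.comp_apply, AlgHom.comp_apply, (pow_sigma hσ _).1 e he, hfix _ (hB0 e he)]
    · rw [Set.mem_singleton_iff] at he
      rw [he, AlgHom.comp_apply, AlgHom.comp_apply, (pow_sigma hσ _).2, map_add, map_natCast, hc]
  · have hσC' : (∀ k ∈ (adjoin Ω {s} : IntermediateField Ω C), σC k = k) ∧ σC u = u + 1 := by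
      refine ⟨fun k hk => ?_, hσC.1⟩
      induction hk using adjoin_induction with
      | mem e he =>
        rw [Set.mem_singleton_iff] at he
        rw [he]
        exact hσC.2
      | algebraMap e => exact σC.commutes e
      | add e f _ _ he hf => rw [map_add, he, hf]
      | inv e _ he => rw [map_inv₀, he]
      | mul e f _ _ he hf => rw [map_mul, he, hf]
    have h2 := pow_sigma hσC' c.val
    refine Pool.Agent.Helper75.QC.hom_ext {u, s} hCt _ _ ?_
    rintro e (rfl | he)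
    · rw [AlgHom.comp_apply, AlgHom.comp_apply, h2.2, map_add, map_natCast]
      have h3 := hfix _ hd0
      rw [map_sub, hc] at h3
      linear_combination h3
    · rw [Set.mem_singleton_iff] at he
      rw [he, AlgHom.comp_apply, AlgHom.comp_apply, h2.1 s (subset_adjoin _ _ rfl), hfix _ hs0]
  · rw [one_mul]
    exact map_pow_eigen T.toCohomology 2 σ ht _
  · rw [one_mul, ← inv_pow]
    exact map_pow_eigen T.toCohomology 1 σC hz _

end Pool.Agent.Helper73.WT
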